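import Pool.Agent.H324.TC.Main

/-!
# A transitive diffeomorphism of the three-torus with a large centralizer

There is a transitive smooth diffeomorphism `f` of the three-torus such that `Z(f)` is not a
central extension of any locally compact group, and not an iterated central extension of one in any
finite number of steps either; the same holds for every group of diffeomorphisms that contains
`Z(f)`, for example for the centralizers of the powers of `f`. The obstruction is already in a
countable, locally finite subgroup of `Z(f)`, the union of an increasing sequence of finite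
dihedral groups.

The group structure and the `C^∞` topology of `Diff^∞(M)`, `IsTransitive` (there is a dense orbit)
and `IsCentralExtensionOfLieGroup` are in `Pool/Agent/Helper802/CentDefs.lean`.
-/

set_option autoImplicit false

open scoped Manifold ContDiff Topology

namespace Pool.Agent.Results.MP_96d1d5_an.NotLocallyCompact

open Pool.Agent.Helper802

/-- A skew product over a rotation of the circle:
`f (x, p, z) = (x θ, p exp(2πi a(x)), z exp(2πi b(x, p)))` with continuous `a`, `b`. -/
def IsSkewProduct (f : Circle × Circle × Circle → Circle × Circle × Circle) : Prop :=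
  ∃ (θ : Circle) (a : Circle → ℝ) (b : Circle × Circle → ℝ), Continuous a ∧ Continuous b ∧
    ∀ x p z : Circle, f (x, p, z) =
      (x * θ, p * Circle.exp (2 * Real.pi * a x), z * Circle.exp (2 * Real.pi * b (x, p)))

/-- `D` is generated by an element `σ` with `σ² = 1` and elements `γ 0, γ 1, …` of finite order,
each of them a power of the next one, that are inverted by `σ`. Thus `D` is the union of an
increasing sequence of finite groups, each generated by `σ` and one `γ n`. -/
def IsUnionOfDihedral {G : Type} [Group G] (D : Subgroup G) : Prop :=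
  ∃ (σ : G) (γ : ℕ → G), D = Subgroup.closure (insert σ (Set.range γ)) ∧ σ * σ = 1 ∧
    ∀ n, IsOfFinOrder (γ n) ∧ γ n ∈ Subgroup.zpowers (γ (n + 1)) ∧ σ * γ n * σ⁻¹ = (γ n)⁻¹

/-- `G ⧸ A` is locally compact for some normal subgroup `A`, closed or not, contained in the `k`-th
term of the upper central series of `G` for some finite `k`. -/
def IsIteratedCentralExtension (G : Type) [Group G] [TopologicalSpace G] : Prop :=
  ∃ (A : Subgroup G) (_ : A.Normal) (k : ℕ), A ≤ Subgroup.upperCentralSeries G k ∧
    LocallyCompactSpace (G ⧸ A)

/-- There are a closed connected smooth manifold with underlying space `Circle × Circle × Circle`,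
a smooth diffeomorphism `f` of it with a dense orbit, a skew product over a rotation of the circle,
and a subgroup `D` of the centralizer of `f`, the union of an increasing sequence of finite dihedral
groups, such that no group `Z` of diffeomorphisms that contains `D` (for example the centralizer of
`f`, or of a power of `f`), with the smooth topology, has a locally compact quotient by a normal
subgroup contained in the `k`-th term of its upper central series for some finite `k`, and no such
`Z` is a central extension of a Lie group. -/
theorem result :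
    ∃ (E : Type) (_ : NormedAddCommGroup E) (_ : NormedSpace ℝ E) (_ : FiniteDimensional ℝ E)
      (H : Type) (_ : TopologicalSpace H) (I : ModelWithCorners ℝ E H) (_ : I.Boundaryless)
      (_ : ChartedSpace H (Circle × Circle × Circle))
      (_ : IsManifold I ∞ (Circle × Circle × Circle))
      (f : (Circle × Circle × Circle) ≃ₘ⟮I, I⟯ (Circle × Circle × Circle))
      (D : Subgroup ((Circle × Circle × Circle) ≃ₘ⟮I, I⟯ (Circle × Circle × Circle))),
      IsSkewProduct f ∧ IsTransitive f ∧ IsUnionOfDihedral D ∧ D ≤ Subgroup.centralizer {f} ∧
      ∀ Z : Subgroup ((Circle × Circle × Circle) ≃ₘ⟮I, I⟯ (Circle × Circle × Circle)), D ≤ Z →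
        ¬ IsIteratedCentralExtension Z ∧ ¬ IsCentralExtensionOfLieGroup Z := by
  obtain ⟨f, θ, a, b, ha, hb, γ, hf, htr, hfin, hinc, hcom, hσ, hinv, hmain⟩ :=
    Pool.Agent.H324.TC.main_theorem'
  have hmem : ∀ g : T3 ≃ₘ⟮I3, I3⟯ T3, Commute g f → g ∈ Subgroup.centralizer {f} := by
    intro g hg
    rw [Subgroup.mem_centralizer_singleton_iff]
    exact hg.eq
  have hit : ∀ Z : Subgroup (T3 ≃ₘ⟮I3, I3⟯ T3),
      Subgroup.closure (insert sigmaDiff (Set.range γ)) ≤ Z → ¬ IsIteratedCentralExtension Z := by
    rintro Z hZ ⟨A, hA, k, hk, hlc⟩
    rw [Subgroup.closure_le] at hZ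
    exact hmain Z (hZ (Set.mem_insert _ _))
      (fun n => hZ (Set.mem_insert_of_mem _ (Set.mem_range_self n))) A hA k hk hlc
  refine ⟨_, _, _, inferInstance, _, _, I3, inferInstance, _, inferInstance, f,
    Subgroup.closure (insert sigmaDiff (Set.range γ)),
    ⟨θ, a, b, ha.continuous, hb.continuous, fun x p z => ?_⟩, htr,
    ⟨sigmaDiff, γ, rfl, ?_, fun n => ⟨hfin n, hinc n, hinv n⟩⟩, ?_,
    fun Z hZ => ⟨hit Z hZ, ?_⟩⟩
  · rw [hf]
    rfl
  · apply Diffeomorph.ext
    intro y
    exact sigmaFun_invol y
  · rw [Subgroup.closure_le]
    rintro g (rfl | ⟨n, rfl⟩)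
    · exact hmem _ hσ
    · exact hmem _ (hcom n)
  · rintro ⟨A₀, hnorm, _, hcen, d, L, _, _, _, _, ⟨φ⟩⟩
    have hLlc : LocallyCompactSpace L :=
      ChartedSpace.locallyCompactSpace (EuclideanSpace ℝ (Fin d)) L
    refine hit Z hZ ⟨A₀, hnorm, 1, ?_, φ.toHomeomorph.isClosedEmbedding.locallyCompactSpace⟩
    rw [Subgroup.upperCentralSeries_one]
    exact hcen

end Pool.Agent.Results.MP_96d1d5_an.NotLocallyCompact
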